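import Mathlib
import Pool.Agent.H993.CT.Defs

/-! Project CT (helper993): tasks 5a, 5b, 5c, by helper343. -/

set_option autoImplicit false
set_option linter.unusedSectionVars false
set_option linter.unusedVariables false

namespace Pool.Agent.H343.CT

open Filter Topology NormedSpace Matrix
open Pool.Agent.H993.TR Pool.Agent.H993.CT
open scoped Kronecker MatrixOrder ComplexOrder

section fold

variable {V V' : Type} [Fintype V] [DecidableEq V] [Fintype V'] [DecidableEq V']

/-- the sum over a fibre (real version) -/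
def fs (p : V → V') (n : V → ℝ) (a : V') : ℝ := ∑ x, if p x = a then n x else 0

theorem sum_fib (p : V → V') (f : V → ℝ) : ∑ x, f x = ∑ a, ∑ x, if p x = a then f x else 0 := by
  rw [Finset.sum_comm]
  refine Finset.sum_congr rfl fun x _ => ?_
  simp

theorem K0_form (p : V → V') (κ : ℝ) (n : V → ℝ) :
    n ⬝ᵥ (K0 p κ *ᵥ n) = κ * ∑ a, fs p n a ^ 2 := by
  have h1 : ∀ x, (K0 p κ *ᵥ n) x = κ * fs p n (p x) := by
    intro x
    unfold K0 fs
    simp only [mulVec, dotProduct]
    rw [Finset.mul_sum]
    refine Finset.sum_congr rfl fun y _ => ?_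
    by_cases h : p x = p y
    · rw [if_pos h, if_pos h.symm]
    · rw [if_neg h, if_neg (fun h' => h h'.symm)]; ring
  simp only [dotProduct, h1]
  rw [sum_fib p, Finset.mul_sum]
  refine Finset.sum_congr rfl fun a _ => ?_
  unfold fs
  rw [sq, ← mul_assoc, Finset.mul_sum]
  refine Finset.sum_congr rfl fun x _ => ?_
  by_cases h : p x = a
  · rw [if_pos h, if_pos h, h]; ring
  · rw [if_neg h, if_neg h]; ring

theorem PN_form (p : V → V') (b : V' → V) (ε : ℝ) (n : V → ℝ) :
    n ⬝ᵥ (PN p b ε *ᵥ n) = ε * ∑ x, if b (p x) = x then 0 else n x ^ 2 := by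
  unfold PN
  simp only [mulVec_diagonal, dotProduct]
  rw [Finset.mul_sum]
  refine Finset.sum_congr rfl fun x _ => ?_
  split_ifs <;> ring

theorem herm (p : V → V') (b : V' → V) (κ ε : ℝ) : (K0 p κ + PN p b ε).IsHermitian := by
  refine IsHermitian.add ?_ ?_
  · ext x y
    simp only [conjTranspose_apply, star_trivial, K0]
    by_cases h : p x = p y
    · rw [if_pos h, if_pos h.symm]
    · rw [if_neg h, if_neg (fun h' => h h'.symm)]
  · unfold PN
    exact isHermitian_diagonal _

/-- **Task 5a.** -/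
theorem task_K0_posDef (p : V → V') (b : V' → V) (hb : ∀ a, p (b a) = a) {κ ε : ℝ} (hκ : 0 < κ)
    (hε : 0 < ε) : (K0 p κ + PN p b ε).PosDef := by
  refine PosDef.of_dotProduct_mulVec_pos (herm p b κ ε) fun n hn => ?_
  rw [star_trivial, add_mulVec, dotProduct_add, K0_form, PN_form]
  have h1 : 0 ≤ ∑ a, fs p n a ^ 2 := Finset.sum_nonneg fun _ _ => sq_nonneg _
  have h2 : 0 ≤ ∑ x, (if b (p x) = x then 0 else n x ^ 2 : ℝ) :=
    Finset.sum_nonneg fun _ _ => by split_ifs <;> positivity
  have h3 : 0 < (∑ a, fs p n a ^ 2) ∨ 0 < ∑ x, (if b (p x) = x then 0 else n x ^ 2 : ℝ) := by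
    by_contra hcon
    push Not at hcon
    have e1 : ∑ a, fs p n a ^ 2 = 0 := le_antisymm hcon.1 h1
    have e2 : ∑ x, (if b (p x) = x then 0 else n x ^ 2 : ℝ) = 0 := le_antisymm hcon.2 h2
    rw [Finset.sum_eq_zero_iff_of_nonneg (fun _ _ => sq_nonneg _)] at e1
    rw [Finset.sum_eq_zero_iff_of_nonneg (fun _ _ => by split_ifs <;> positivity)] at e2
    apply hn
    have e3 : ∀ x, b (p x) ≠ x → n x = 0 := by
      intro x hx
      have := e2 x (Finset.mem_univ x)
      rw [if_neg hx] at this
      exact pow_eq_zero_iff (two_ne_zero) |>.1 this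
    funext x
    by_cases hx : b (p x) = x
    · have h4 : fs p n (p x) = 0 := pow_eq_zero_iff (two_ne_zero) |>.1 (e1 (p x) (Finset.mem_univ _))
      unfold fs at h4
      rw [Finset.sum_eq_single x] at h4
      · rw [if_pos rfl] at h4
        exact h4
      · intro y _ hy
        by_cases hpy : p y = p x
        · rw [if_pos hpy]
          apply e3
          rw [hpy, hx]
          exact fun h => hy h.symm
        · rw [if_neg hpy]
      · intro h; exact absurd (Finset.mem_univ x) h
    · exact e3 x hx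
  rcases h3 with h3 | h3
  · have := mul_pos hκ h3
    have := mul_nonneg hε.le h2
    linarith
  · have := mul_pos hε h3
    have := mul_nonneg hκ.le h1
    linarith

/-- **Task 5b.** `∑ x y, K0 x y n_x n_y = κ ∑ a, (∑ x in the fibre, n x)² ≤ κ m ∑ x, (n x)²`. -/
theorem task_K0_le (p : V → V') (b : V' → V) {κ ε U : ℝ} (hκ : 0 ≤ κ) (hε : 0 ≤ ε) (m : ℕ)
    (hm : ∀ a, (Finset.univ.filter fun x => p x = a).card ≤ m) (hU : κ * m + ε ≤ U) :
    (U • (1 : Matrix V V ℝ) - (K0 p κ + PN p b ε)).PosSemidef := by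
  refine PosSemidef.of_dotProduct_mulVec_nonneg ?_ fun n => ?_
  · refine IsHermitian.sub ?_ (herm p b κ ε)
    rw [smul_one_eq_diagonal]
    exact isHermitian_diagonal _
  · rw [star_trivial, sub_mulVec, add_mulVec, dotProduct_sub, dotProduct_add, K0_form, PN_form,
      smul_mulVec, one_mulVec, dotProduct_smul, smul_eq_mul]
    have h1 : n ⬝ᵥ n = ∑ x, n x ^ 2 := by
      simp only [dotProduct]
      exact Finset.sum_congr rfl fun x _ => by ring
    have h2 : ∑ a, fs p n a ^ 2 ≤ m * ∑ x, n x ^ 2 := by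
      rw [sum_fib p, Finset.mul_sum]
      refine Finset.sum_le_sum fun a _ => ?_
      unfold fs
      rw [← Finset.sum_filter, ← Finset.sum_filter]
      refine (sq_sum_le_card_mul_sum_sq).trans ?_
      refine mul_le_mul_of_nonneg_right ?_ (Finset.sum_nonneg fun _ _ => sq_nonneg _)
      exact_mod_cast hm a
    have h3 : ∑ x, (if b (p x) = x then 0 else n x ^ 2 : ℝ) ≤ ∑ x, n x ^ 2 :=
      Finset.sum_le_sum fun x _ => by split_ifs <;> first | positivity | exact le_rfl
    have h4 : 0 ≤ ∑ x, n x ^ 2 := Finset.sum_nonneg fun _ _ => sq_nonneg _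
    rw [h1]
    have h5 := mul_le_mul_of_nonneg_left h2 hκ
    have h6 := mul_le_mul_of_nonneg_left h3 hε
    have h7 := mul_le_mul_of_nonneg_right hU h4
    nlinarith

theorem fib_split (p : V → V') (b : V' → V) (hb : ∀ a, p (b a) = a) (f : V → ℤ) (c : V') :
    ∑ x, (if p x = c then f x else 0) = f (b c) + ∑ y : NB p b, if p y.1 = c then f y.1 else 0 := by
  classical
  rw [← Finset.sum_filter_add_sum_filter_not Finset.univ (fun x => b (p x) ≠ x)
    (fun x => if p x = c then f x else 0), add_comm]
  congr 1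
  · rw [Finset.sum_eq_single (b c)]
    · rw [if_pos (hb c)]
    · intro x hx hxc
      rw [Finset.mem_filter] at hx
      have h1 : b (p x) = x := not_not.1 hx.2
      rw [if_neg]
      intro h2
      rw [h2] at h1
      exact hxc h1.symm
    · intro h
      exfalso
      apply h
      rw [Finset.mem_filter]
      exact ⟨Finset.mem_univ _, not_not.2 (by rw [hb])⟩
  · exact Finset.sum_subtype (Finset.univ.filter fun x => b (p x) ≠ x) (by simp)
      (fun x => if p x = c then f x else 0)

theorem sum_pf (p : V → V') (n : V → ℤ) : ∑ a, pf p n a = ∑ x, n x := by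
  unfold pf
  rw [Finset.sum_comm]
  exact Finset.sum_congr rfl fun x _ => by simp

theorem lift_NB (p : V → V') (b : V' → V) (a : V' → ℤ) (k : NB p b → ℤ) (y : NB p b) :
    lift p b a k y.1 = k y := by
  unfold lift
  rw [dif_pos y.2]

theorem lift_b (p : V → V') (b : V' → V) (hb : ∀ a, p (b a) = a) (a : V' → ℤ) (k : NB p b → ℤ)
    (c : V') : lift p b a k (b c) = a c - ∑ y : NB p b, if p y.1 = c then k y else 0 := by
  unfold lift
  rw [dif_neg (not_not.2 (by rw [hb])), hb]

theorem pf_lift (p : V → V') (b : V' → V) (hb : ∀ a, p (b a) = a) (a : V' → ℤ) (k : NB p b → ℤ) :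
    pf p (lift p b a k) = a := by
  funext c
  unfold pf
  rw [fib_split p b hb, lift_b p b hb]
  simp only [lift_NB]
  ring

theorem lift_pf (p : V → V') (b : V' → V) (hb : ∀ a, p (b a) = a) (n : V → ℤ) :
    lift p b (pf p n) (fun x => n x.1) = n := by
  funext x
  by_cases hx : b (p x) ≠ x
  · exact lift_NB p b _ _ ⟨x, hx⟩
  · have hx' : b (p x) = x := not_not.1 hx
    conv_lhs => rw [← hx']
    rw [lift_b p b hb]
    unfold pf
    rw [fib_split p b hb, hx']
    ring

/-- **Task 5c.** The equivalence of the neutral configurations on `V` and of the pairs of a neutral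
configuration on `V'` (the sums over the fibres) and of arbitrary values outside of the base points. -/
theorem task_equiv (p : V → V') (b : V' → V) (hb : ∀ a, p (b a) = a) :
    ∃ e : Sec V 0 ≃ Sec V' 0 × (NB p b → ℤ),
      (∀ n, (e n).1.1 = pf p n.1) ∧ (∀ n x, (e n).2 x = n.1 x.1) ∧
      ∀ u, (e.symm u).1 = lift p b u.1.1 u.2 := by
  refine ⟨{ toFun := fun n => (⟨pf p n.1, by rw [sum_pf]; exact n.2⟩, fun x => n.1 x.1)
            invFun := fun u => ⟨lift p b u.1.1 u.2, by
              rw [← sum_pf p, pf_lift p b hb]; exact u.1.2⟩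
            left_inv := fun n => Subtype.ext (lift_pf p b hb n.1)
            right_inv := fun u => Prod.ext (Subtype.ext (pf_lift p b hb _ _))
              (funext fun y => lift_NB p b _ _ y) }, fun _ => rfl, fun _ _ => rfl, fun _ => rfl⟩

end fold

end Pool.Agent.H343.CT
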